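import Pool.Agent.H52.HC2

set_option autoImplicit false

namespace Pool.Agent.Results.MP_df1f63_gt.Ellipse

/-- Hilbert distance: with `I = x - s (y - x)` and `J = x + t (y - x)` the ends of the chord,
`|Iy| |xJ| / (|Ix| |yJ|) = (1 + s) t / (s (t - 1))`. For `x = y` the value is `0`. -/
noncomputable def hd (K : Set (ℝ × ℝ)) (x y : ℝ × ℝ) : ℝ := (1 / 2) * Real.log
  (((1 + sSup {s : ℝ | 0 ≤ s ∧ x - s • (y - x) ∈ K}) *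
      sSup {t : ℝ | 0 ≤ t ∧ x + t • (y - x) ∈ K}) /
    (sSup {s : ℝ | 0 ≤ s ∧ x - s • (y - x) ∈ K} *
      (sSup {t : ℝ | 0 ≤ t ∧ x + t • (y - x) ∈ K} - 1)))

/-- The geodesic line `l ∩ K` is perpendicular to `m ∩ K`: they meet at a point `F` of `K` that is
a nearest point of `m ∩ K` to every point of `l ∩ K`. -/
def Perp (K : Set (ℝ × ℝ)) (l m : AffineSubspace ℝ (ℝ × ℝ)) : Prop :=
  ∃ F ∈ K, F ∈ m ∧ F ∈ l ∧ ∀ X ∈ l, X ∈ K → ∀ Y ∈ m, Y ∈ K → hd K X F ≤ hd K X Y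

/-- `m` is a reverse altitude from `A` of the triangle `ABC`. -/
def RevAlt (K : Set (ℝ × ℝ)) (A B C : ℝ × ℝ) (m : AffineSubspace ℝ (ℝ × ℝ)) : Prop :=
  Module.finrank ℝ m.direction = 1 ∧ A ∈ m ∧ Perp K (affineSpan ℝ {B, C}) m

/-- Three lines pass through one point of the projective plane. -/
def Pencil (l₁ l₂ l₃ : AffineSubspace ℝ (ℝ × ℝ)) : Prop :=
  (∃ p, p ∈ l₁ ∧ p ∈ l₂ ∧ p ∈ l₃) ∨ (l₁.direction = l₂.direction ∧ l₂.direction = l₃.direction)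

theorem result (K : Set (ℝ × ℝ)) (ho : IsOpen K) (hc : Convex ℝ K) (hb : Bornology.IsBounded K)
    (hne : K.Nonempty)
    (h : ∀ A B C : ℝ × ℝ, A ∈ K → B ∈ K → C ∈ K → ¬ Collinear ℝ {A, B, C} →
      ∀ l₁ l₂ l₃, RevAlt K A B C l₁ → RevAlt K B C A l₂ → RevAlt K C A B l₃ → Pencil l₁ l₂ l₃) :
    ∃ f : (ℝ × ℝ) ≃ᵃ[ℝ] (ℝ × ℝ), K = f '' {p : ℝ × ℝ | p.1 ^ 2 + p.2 ^ 2 < 1} :=
  Pool.Agent.H52.HB.main' ho hc hb hne (Pool.Agent.H52.HB.H'_of ho hc hb h)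

end Pool.Agent.Results.MP_df1f63_gt.Ellipse
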